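import Mathlib

set_option autoImplicit false

namespace Pool.Agent.Results.MP_fa4fe0_co.CoverNotMultiple

open Finset

variable {d n : ℕ}

/-- A polyplex of the `d`-dimensional `(0,1)`-matrix of order `n` whose unit entries are the
indices in `A`. -/
structure IsPolyplex (A : Set (Fin d → Fin n)) (K : (Fin d → Fin n) → ℝ) : Prop where
  nonneg : ∀ α, 0 ≤ K α
  supp : ∀ α, α ∉ A → K α = 0
  le_one : ∀ (i : Fin d) (j : Fin n), ∑ α : Fin d → Fin n, (if α i = j then K α else 0) ≤ 1

/-- A hyperplane cover. -/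
structure IsCover (A : Set (Fin d → Fin n)) (L : Fin d → Fin n → ℝ) : Prop where
  nonneg : ∀ i j, 0 ≤ L i j
  cover : ∀ α, α ∈ A → 1 ≤ ∑ i, L i (α i)

/-- A polydiagonal is a polyplex of weight `n`. -/
def HasPolydiagonal (A : Set (Fin d → Fin n)) : Prop :=
  ∃ K : (Fin d → Fin n) → ℝ, IsPolyplex A K ∧ ∑ α, K α = n

/-- Extremal matrices. -/
def IsExtremal (A : Set (Fin d → Fin n)) : Prop :=
  ¬ HasPolydiagonal A ∧ ∀ α, α ∉ A → HasPolydiagonal (insert α A)

/-- `δ` is the deficiency: `n` minus the weight of an optimal polyplex. -/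
def IsDeficiency (A : Set (Fin d → Fin n)) (δ : ℝ) : Prop :=
  ∃ K : (Fin d → Fin n) → ℝ, IsPolyplex A K ∧
    (∀ K' : (Fin d → Fin n) → ℝ, IsPolyplex A K' → ∑ α, K' α ≤ ∑ α, K α) ∧
    δ = n - ∑ α, K α

/-- Optimal hyperplane covers. -/
def IsOptimalCover (A : Set (Fin d → Fin n)) (L : Fin d → Fin n → ℝ) : Prop :=
  IsCover A L ∧ ∀ L' : Fin d → Fin n → ℝ, IsCover A L' → ∑ i, ∑ j, L i j ≤ ∑ i, ∑ j, L' i j

theorem weak_duality {A : Set (Fin d → Fin n)} {K : (Fin d → Fin n) → ℝ}
    {L : Fin d → Fin n → ℝ} (hK : IsPolyplex A K) (hL : IsCover A L) :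
    ∑ α, K α ≤ ∑ i, ∑ j, L i j := by
  calc ∑ α, K α ≤ ∑ α, ∑ i, K α * L i (α i) := by
        apply Finset.sum_le_sum
        intro α _
        by_cases h : α ∈ A
        · rw [← Finset.mul_sum]
          have h1 := hK.nonneg α
          have h2 := hL.cover α h
          nlinarith
        · rw [hK.supp α h]; simp
    _ = ∑ i, ∑ α, K α * L i (α i) := Finset.sum_comm
    _ = ∑ i, ∑ j, L i j * ∑ α : Fin d → Fin n, (if α i = j then K α else 0) := by
        apply Finset.sum_congr rfl
        intro i _
        simp_rw [Finset.mul_sum]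
        rw [Finset.sum_comm]
        apply Finset.sum_congr rfl
        intro α _
        simp only [mul_ite, mul_zero]
        rw [Finset.sum_ite_eq]
        simp [mul_comm]
    _ ≤ ∑ i, ∑ j, L i j := by
        apply Finset.sum_le_sum
        intro i _
        apply Finset.sum_le_sum
        intro j _
        have h1 := hL.nonneg i j
        have h2 := hK.le_one i j
        nlinarith

/-! ### The example: `d = 9`, `n = 2` -/

def w : Fin 9 → ℕ := ![29, 25, 19, 15, 12, 8, 8, 3, 3]

def S (α : Fin 9 → Fin 2) : ℕ := ∑ i, if α i = 1 then w i else 0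

/-- The matrix: the unit entries are the `α` whose ones have total weight at least `62`. -/
def A0 : Set (Fin 9 → Fin 2) := {α | 62 ≤ S α}

def a : Fin 9 → Fin 9 → Fin 2 :=
  ![![0, 0, 1, 1, 1, 1, 1, 0, 0], ![1, 0, 0, 1, 1, 0, 0, 1, 1], ![0, 1, 1, 1, 0, 0, 0, 1, 0],
    ![1, 1, 0, 0, 0, 1, 0, 0, 0], ![1, 0, 1, 0, 0, 1, 0, 1, 1], ![0, 1, 0, 1, 0, 1, 1, 1, 1],
    ![1, 1, 0, 0, 0, 0, 1, 0, 0], ![0, 1, 1, 0, 1, 0, 0, 1, 1], ![0, 1, 1, 1, 0, 0, 0, 0, 1]]

def y : Fin 9 → ℕ := ![14, 9, 1, 4, 7, 6, 11, 8, 1]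

/-- The optimal polyplex. -/
noncomputable def K0 (α : Fin 9 → Fin 2) : ℝ := ∑ t, if α = a t then (y t : ℝ) / 31 else 0

/-- The optimal cover. -/
noncomputable def L0 (i : Fin 9) (j : Fin 2) : ℝ := if j = 1 then (w i : ℝ) / 62 else 0

def flip (α : Fin 9 → Fin 2) : Fin 9 → Fin 2 := fun i => 1 - α i

theorem S_eq (α : Fin 9 → Fin 2) : S α = 29 * (α 0).val + 25 * (α 1).val + 19 * (α 2).val +
    15 * (α 3).val + 12 * (α 4).val + 8 * (α 5).val + 8 * (α 6).val + 3 * (α 7).val +
    3 * (α 8).val := by
  have h : ∀ (b : Fin 2) (m : ℕ), (if b = 1 then m else 0) = m * b.val := by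
    intro b m
    fin_cases b <;> simp
  unfold S
  simp only [h, Fin.sum_univ_succ, Fin.sum_univ_zero, w]
  simp [Fin.succ]
  ring

theorem S_flip (α : Fin 9 → Fin 2) : S (flip α) + S α = 122 := by
  have h : ∀ b : Fin 2, (1 - b : Fin 2).val = 1 - b.val := by decide
  rw [S_eq, S_eq]
  simp only [flip, h]
  have := (α 0).2; have := (α 1).2; have := (α 2).2; have := (α 3).2; have := (α 4).2
  have := (α 5).2; have := (α 6).2; have := (α 7).2; have := (α 8).2
  omega

theorem S_ne (α : Fin 9 → Fin 2) : S α ≠ 61 := by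
  rw [S_eq]
  have key : ∀ b0 b1 b2 b3 b4 b5 b6 b7 b8 : Fin 2, 29 * b0.val + 25 * b1.val + 19 * b2.val +
    15 * b3.val + 12 * b4.val + 8 * b5.val + 8 * b6.val + 3 * b7.val +
    3 * b8.val ≠ 61 := by decide +kernel
  exact key _ _ _ _ _ _ _ _ _

theorem a_mem (t : Fin 9) : a t ∈ A0 := by
  show 62 ≤ S (a t)
  revert t
  decide +kernel

theorem sum_K0 (p : (Fin 9 → Fin 2) → Prop) [DecidablePred p] :
    ∑ α, (if p α then K0 α else 0) = ∑ t, if p (a t) then (y t : ℝ) / 31 else 0 := by
  unfold K0
  have h1 : ∀ α : Fin 9 → Fin 2, (if p α then (∑ t, if α = a t then (y t : ℝ) / 31 else 0) else 0)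
      = ∑ t, if α = a t then (if p (a t) then (y t : ℝ) / 31 else 0) else 0 := by
    intro α
    by_cases hp : p α
    · rw [if_pos hp]
      apply Finset.sum_congr rfl
      intro t _
      by_cases hα : α = a t
      · subst hα; simp [hp]
      · simp [hα]
    · rw [if_neg hp]
      symm
      apply Finset.sum_eq_zero
      intro t _
      by_cases hα : α = a t
      · subst hα; simp [hp]
      · simp [hα]
  simp_rw [h1]
  rw [Finset.sum_comm]
  apply Finset.sum_congr rfl
  intro t _
  rw [Finset.sum_ite_eq']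
  simp

theorem weight_K0 : ∑ α, K0 α = 61 / 31 := by
  have h := sum_K0 (fun _ => True)
  simp only [if_true] at h
  rw [h]
  simp only [Fin.sum_univ_succ, Fin.sum_univ_zero, y]
  simp [Fin.succ]
  norm_num

theorem polyplex_K0 : IsPolyplex A0 K0 := by
  refine ⟨?_, ?_, ?_⟩
  · intro α
    unfold K0
    apply Finset.sum_nonneg
    intro t _
    split_ifs
    · positivity
    · exact le_refl 0
  · intro α hα
    unfold K0
    apply Finset.sum_eq_zero
    intro t _
    rw [if_neg]
    rintro rfl
    exact hα (a_mem t)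
  · intro i j
    rw [sum_K0 (fun α => α i = j)]
    have h : ∀ (i : Fin 9) (j : Fin 2), (∑ t, if a t i = j then y t else 0) ≤ 31 := by
      decide +kernel
    have h2 : (∑ t, if a t i = j then (y t : ℝ) / 31 else 0) =
        ((∑ t, if a t i = j then y t else 0 : ℕ) : ℝ) / 31 := by
      rw [Nat.cast_sum, Finset.sum_div]
      apply Finset.sum_congr rfl
      intro t _
      split_ifs <;> simp
    rw [h2, div_le_one (by norm_num)]
    exact_mod_cast h i j

theorem cover_L0 : IsCover A0 L0 := by
  refine ⟨?_, ?_⟩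
  · intro i j
    unfold L0
    split_ifs
    · positivity
    · exact le_refl 0
  · intro α hα
    have hα' : 62 ≤ S α := hα
    have h : ∑ i, L0 i (α i) = (S α : ℝ) / 62 := by
      unfold L0 S
      rw [Nat.cast_sum, Finset.sum_div]
      apply Finset.sum_congr rfl
      intro i _
      split_ifs <;> simp
    rw [h, le_div_iff₀ (by norm_num)]
    have : (62 : ℝ) ≤ (S α : ℝ) := by exact_mod_cast hα'
    linarith

theorem weight_L0 : ∑ i, ∑ j, L0 i j = 61 / 31 := by
  unfold L0
  simp only [Fin.sum_univ_succ, Fin.sum_univ_zero, w]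
  simp [Fin.succ]
  norm_num

theorem extremal_A0 : IsExtremal A0 := by
  refine ⟨?_, ?_⟩
  · rintro ⟨K, hK, hw⟩
    have h := weak_duality hK cover_L0
    rw [hw, weight_L0] at h
    norm_num at h
  · intro α hα
    have hα' : S α ≤ 61 := by
      by_contra hc
      exact hα (show 62 ≤ S α by omega)
    have hne := S_ne α
    have hf := S_flip α
    have hmem : flip α ∈ A0 := by
      show 62 ≤ S (flip α)
      omega
    refine ⟨fun β => if β = α ∨ β = flip α then 1 else 0, ⟨?_, ?_, ?_⟩, ?_⟩
    · intro β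
      split_ifs <;> norm_num
    · intro β hβ
      rw [if_neg]
      rintro (rfl | rfl)
      · exact hβ (Set.mem_insert _ _)
      · exact hβ (Set.mem_insert_of_mem _ hmem)
    · intro i j
      have hb : ∀ β : Fin 9 → Fin 2, (if β i = j then (if β = α ∨ β = flip α then (1 : ℝ) else 0)
          else 0) ≤ if β = (if α i = j then α else flip α) then 1 else 0 := by
        intro β
        by_cases h1 : β i = j
        · by_cases h2 : β = α ∨ β = flip α
          · have h3 : β = (if α i = j then α else flip α) := by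
              rcases h2 with rfl | rfl
              · rw [if_pos h1]
              · rw [if_neg]
                intro h4
                have h5 : flip α i ≠ α i := by
                  have : ∀ b : Fin 2, (1 - b : Fin 2) ≠ b := by decide
                  exact this (α i)
                exact h5 (h1.trans h4.symm)
            rw [if_pos h1, if_pos h2, if_pos h3]
          · rw [if_pos h1, if_neg h2]; split_ifs <;> norm_num
        · rw [if_neg h1]; split_ifs <;> norm_num
      calc _ ≤ ∑ β : Fin 9 → Fin 2, (if β = (if α i = j then α else flip α) then (1 : ℝ) else 0) :=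
            Finset.sum_le_sum fun β _ => hb β
        _ ≤ 1 := by rw [Finset.sum_ite_eq']; simp
    · have hd : flip α ≠ α := by
        intro h
        have h5 : flip α 0 ≠ α 0 := by
          have : ∀ b : Fin 2, (1 - b : Fin 2) ≠ b := by decide
          exact this (α 0)
        exact h5 (congrFun h 0)
      have h1 : ∀ β : Fin 9 → Fin 2, (if β = α ∨ β = flip α then (1 : ℝ) else 0) =
          (if β = α then 1 else 0) + (if β = flip α then 1 else 0) := by
        intro β
        by_cases e1 : β = α
        · subst e1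
          simp [hd.symm]
        · simp [e1]
      simp_rw [h1]
      rw [Finset.sum_add_distrib, Finset.sum_ite_eq', Finset.sum_ite_eq']
      simp
      norm_num

theorem deficiency_A0 : IsDeficiency A0 (1 / 31) := by
  refine ⟨K0, polyplex_K0, ?_, ?_⟩
  · intro K' hK'
    rw [weight_K0, ← weight_L0]
    exact weak_duality hK' cover_L0
  · rw [weight_K0]; norm_num

theorem optimal_L0 : IsOptimalCover A0 L0 := by
  refine ⟨cover_L0, ?_⟩
  intro L' hL'
  rw [weight_L0, ← weight_K0]
  exact weak_duality polyplex_K0 hL'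

/-- There is an extremal matrix of dimension `9` and order `2` with an optimal hyperplane cover
having an entry that is not an integer multiple of the deficiency. -/
theorem result : ∃ (A : Set (Fin 9 → Fin 2)) (δ : ℝ) (L : Fin 9 → Fin 2 → ℝ),
    IsExtremal A ∧ IsDeficiency A δ ∧ IsOptimalCover A L ∧
      ∃ i j, ∀ m : ℤ, L i j ≠ m * δ := by
  refine ⟨A0, 1 / 31, L0, extremal_A0, deficiency_A0, optimal_L0, 0, 1, ?_⟩
  intro m hm
  have h1 : L0 0 1 = 29 / 62 := by
    unfold L0
    simp [w]
  rw [h1] at hm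
  have h2 : (29 : ℝ) = 2 * m := by linarith
  have h3 : (29 : ℤ) = 2 * m := by exact_mod_cast h2
  omega

end Pool.Agent.Results.MP_fa4fe0_co.CoverNotMultiple
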